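import Mathlib
import Pool.Agent.H52.LO.B6

/-!
# MP_a78e8f_nt : the mean absolute error and errors of both signs for every single modulus

For every modulus `q ≥ x ^ (1 - 1/(2k) + δ)` the sums over the reduced classes of the positive parts and of the
negative parts of `π(x;q,a) - π(x)/φ(q)` are at least `q (x/q)^((k-1)/(2k-1)) (log x)^(-4)`; for every modulus
`q ≥ x ^ (2/3 + δ)` they are at least `x^(-ε) min(q (x/q)^(1/3), q² x^(-2/3))`.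
-/

set_option autoImplicit false

open Finset

namespace Pool.Agent.H52.Kept.BothSignsEveryModulus

open Pool.Agent.H52

/-- `π(x;q,a) - π(x)/φ(q)` for a residue `a` -/
noncomputable def Δ (x q a : ℕ) : ℝ :=
  (((Icc 1 x).filter (fun p : ℕ => Nat.Prime p ∧ p % q = a)).card : ℝ) -
    (Nat.primeCounting x : ℝ) / (Nat.totient q : ℝ)

/-- the reduced residues mod `q` -/
def red (q : ℕ) : Finset ℕ := (range q).filter (fun a => a.Coprime q)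

/-- `π(x;q,a) - π(x)/φ(q)` for a unit `a`, as in the problem -/
noncomputable def D (x q : ℕ) (a : (ZMod q)ˣ) : ℝ :=
  (((Finset.Icc 1 x).filter
        (fun p : ℕ => Nat.Prime p ∧ ((p : ZMod q) = ((a : (ZMod q)ˣ) : ZMod q)))).card : ℝ)
      - (Nat.primeCounting x : ℝ) / (Nat.totient q : ℝ)

/-- the largest excess over the reduced classes -/
noncomputable def Eplus (x q : ℕ) : ℝ := ⨆ a : (ZMod q)ˣ, max (D x q a) 0

/-- the largest deficiency over the reduced classes -/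
noncomputable def Eminus (x q : ℕ) : ℝ := ⨆ a : (ZMod q)ˣ, max (-D x q a) 0

lemma D_eq (x q a : ℕ) (ha : a < q) (hc : a.Coprime q) :
    D x q (ZMod.unitOfCoprime a hc) = Δ x q a := by
  unfold D Δ
  simp only [ZMod.coe_unitOfCoprime]
  have h2 : (Icc 1 x).filter (fun p : ℕ => Nat.Prime p ∧ p % q = a) =
      (Finset.Icc 1 x).filter (fun p : ℕ => Nat.Prime p ∧ ((p : ZMod q) = ((a : ℕ) : ZMod q))) := by
    apply filter_congr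
    intro p _
    rw [ZMod.natCast_eq_natCast_iff', Nat.mod_eq_of_lt ha]
  rw [h2]

lemma Eplus_ge (x q a : ℕ) (hq : 0 < q) (ha : a < q) (hc : a.Coprime q) : max (Δ x q a) 0 ≤ Eplus x q := by
  have : NeZero q := ⟨hq.ne'⟩
  have h1 := le_ciSup (f := fun a : (ZMod q)ˣ => max (D x q a) 0) (Set.finite_range _).bddAbove
      (ZMod.unitOfCoprime a hc)
  rw [D_eq x q a ha hc] at h1
  exact h1

lemma Eminus_ge (x q a : ℕ) (hq : 0 < q) (ha : a < q) (hc : a.Coprime q) : max (-Δ x q a) 0 ≤ Eminus x q := by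
  have : NeZero q := ⟨hq.ne'⟩
  have h1 := le_ciSup (f := fun a : (ZMod q)ˣ => max (-D x q a) 0) (Set.finite_range _).bddAbove
      (ZMod.unitOfCoprime a hc)
  rw [D_eq x q a ha hc] at h1
  exact h1

lemma Eplus_nonneg (x q : ℕ) : 0 ≤ Eplus x q := Real.iSup_nonneg fun _ => le_max_right _ _

lemma Eminus_nonneg (x q : ℕ) : 0 ≤ Eminus x q := Real.iSup_nonneg fun _ => le_max_right _ _

lemma red_card (q : ℕ) : (red q).card = Nat.totient q := by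
  unfold red
  rw [Nat.totient_eq_card_coprime]
  congr 1
  ext b
  simp only [mem_filter, mem_range]
  rw [Nat.coprime_comm]

lemma pi_eq (x : ℕ) : Nat.primeCounting x = (Pr x).card := by
  rw [Nat.primeCounting, Nat.primeCounting', Nat.count_eq_card_filter_range]
  unfold Pr
  congr 1
  ext p
  rw [mem_filter, mem_filter, mem_range, mem_Icc]
  constructor
  · rintro ⟨h1, h2⟩
    exact ⟨⟨h2.pos, by omega⟩, h2⟩
  · rintro ⟨h1, h2⟩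
    exact ⟨by omega, h2⟩

lemma L1_eq (x q : ℕ) : LO.L1 x q (((Pr x).card : ℝ) / Nat.totient q) = ∑ a ∈ red q, |Δ x q a| := by
  unfold LO.L1 red Δ pc
  rw [pi_eq]

/-- the sum of the errors over the reduced classes is `- #{p ≤ x : p ∣ q}` -/
lemma sum_Δ (x q : ℕ) (hq : 0 < q) :
    ∑ a ∈ red q, Δ x q a ≤ 0 ∧ -(q.divisors.card : ℝ) ≤ ∑ a ∈ red q, Δ x q a := by
  have h1 : ∑ a ∈ red q, Δ x q a = (((Pr x).filter (fun p => p.Coprime q)).card : ℝ) - (Pr x).card := by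
    have h2 := cls_sum x q hq (fun _ => 1)
    simp only [one_mul, sum_const, nsmul_eq_mul, mul_one] at h2
    rw [← h2]
    unfold Δ
    rw [sum_sub_distrib, sum_const, red_card, nsmul_eq_mul, pi_eq]
    have hφ : (0 : ℝ) < Nat.totient q := by exact_mod_cast Nat.totient_pos.2 hq
    have h3 : (Nat.totient q : ℝ) * (((Pr x).card : ℝ) / Nat.totient q) = (Pr x).card := by
      field_simp
    rw [h3]
    rfl
  have h2 : ((Pr x).filter (fun p => p.Coprime q)).card + ((Pr x).filter (fun p => ¬ p.Coprime q)).card = (Pr x).card :=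
    card_filter_add_card_filter_not _
  have h3 : ((Pr x).filter (fun p => ¬ p.Coprime q)).card ≤ q.divisors.card := by
    apply card_le_card
    intro p hp
    unfold Pr at hp
    rw [mem_filter, mem_filter] at hp
    rw [Nat.mem_divisors]
    refine ⟨?_, hq.ne'⟩
    by_contra hcon
    exact hp.2 ((Nat.Prime.coprime_iff_not_dvd hp.1.2).2 hcon)
  have h4 : (((Pr x).filter (fun p => p.Coprime q)).card : ℝ) +
      (((Pr x).filter (fun p => ¬ p.Coprime q)).card : ℝ) = (Pr x).card := by exact_mod_cast h2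
  have h5 : (((Pr x).filter (fun p => ¬ p.Coprime q)).card : ℝ) ≤ q.divisors.card := by exact_mod_cast h3
  have h6 : (0 : ℝ) ≤ (((Pr x).filter (fun p => ¬ p.Coprime q)).card : ℝ) := by positivity
  rw [h1]
  constructor <;> linarith

/-- from the sum of the absolute values to both signs -/
lemma signs (x q : ℕ) (hq : 0 < q) (Z : ℝ) (h : 3 * Z ≤ ∑ a ∈ red q, |Δ x q a|) (hτ : (q.divisors.card : ℝ) ≤ Z) :
    Z ≤ ∑ a ∈ red q, max (Δ x q a) 0 ∧ Z ≤ ∑ a ∈ red q, max (-Δ x q a) 0 := by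
  obtain ⟨h1, h2⟩ := sum_Δ x q hq
  have h3 : ∑ a ∈ red q, max (Δ x q a) 0 = (∑ a ∈ red q, |Δ x q a| + ∑ a ∈ red q, Δ x q a) / 2 := by
    rw [← sum_add_distrib, sum_div]
    apply sum_congr rfl
    intro a _
    rcases le_total 0 (Δ x q a) with h | h
    · rw [max_eq_left h, abs_of_nonneg h]; ring
    · rw [max_eq_right h, abs_of_nonpos h]; ring
  have h4 : ∑ a ∈ red q, max (-Δ x q a) 0 = (∑ a ∈ red q, |Δ x q a| - ∑ a ∈ red q, Δ x q a) / 2 := by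
    rw [← sum_sub_distrib, sum_div]
    apply sum_congr rfl
    intro a _
    rcases le_total 0 (Δ x q a) with h | h
    · rw [max_eq_right (by linarith), abs_of_nonneg h]; ring
    · rw [max_eq_left (by linarith), abs_of_nonpos h]; ring
  have hτ0 : (0 : ℝ) ≤ q.divisors.card := by positivity
  rw [h3, h4]
  constructor <;> linarith

/-- from the sum over the classes to the maximum -/
lemma to_max (q : ℕ) (hq : 0 < q) (Z M : ℝ) (f : ℕ → ℝ) (hZ : Z ≤ ∑ a ∈ red q, f a)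
    (hM : ∀ a ∈ red q, f a ≤ M) (hM0 : 0 ≤ M) : Z / q ≤ M := by
  have h1 : ∑ a ∈ red q, f a ≤ q * M := by
    calc ∑ a ∈ red q, f a ≤ ∑ a ∈ red q, M := sum_le_sum hM
      _ = Nat.totient q * M := by rw [sum_const, red_card, nsmul_eq_mul]
      _ ≤ q * M := by
          apply mul_le_mul_of_nonneg_right _ hM0
          exact_mod_cast Nat.totient_le q
  have hq0 : (0 : ℝ) < q := by exact_mod_cast hq
  rw [div_le_iff₀ hq0]
  linarith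

lemma to_maxes (x q : ℕ) (hq : 0 < q) (Z : ℝ) (h1 : Z ≤ ∑ a ∈ red q, max (Δ x q a) 0)
    (h2 : Z ≤ ∑ a ∈ red q, max (-Δ x q a) 0) : Z / q ≤ Eplus x q ∧ Z / q ≤ Eminus x q := by
  constructor
  · apply to_max q hq Z _ _ h1 _ (Eplus_nonneg x q)
    intro a ha
    unfold red at ha
    rw [mem_filter, mem_range] at ha
    exact Eplus_ge x q a hq ha.1 ha.2
  · apply to_max q hq Z _ _ h2 _ (Eminus_nonneg x q)
    intro a ha
    unfold red at ha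
    rw [mem_filter, mem_range] at ha
    exact Eminus_ge x q a hq ha.1 ha.2

theorem part1 (k : ℕ) (hk : 2 ≤ k) (δ : ℝ) (hδ : 0 < δ) (hδ2 : δ ≤ 1 / (2 * k)) : ∃ x0 : ℕ, ∀ x : ℕ, x0 ≤ x →
    ∀ q : ℕ, (x : ℝ) ^ (1 - 1 / (2 * k) + δ) ≤ q → q ≤ x →
      q * ((x : ℝ) / q) ^ (((k : ℝ) - 1) / (2 * k - 1)) / (Real.log x) ^ 4 ≤ ∑ a ∈ red q, max (Δ x q a) 0 ∧
      q * ((x : ℝ) / q) ^ (((k : ℝ) - 1) / (2 * k - 1)) / (Real.log x) ^ 4 ≤ ∑ a ∈ red q, max (-Δ x q a) 0 ∧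
      ((x : ℝ) / q) ^ (((k : ℝ) - 1) / (2 * k - 1)) / (Real.log x) ^ 4 ≤ Eplus x q ∧
      ((x : ℝ) / q) ^ (((k : ℝ) - 1) / (2 * k - 1)) / (Real.log x) ^ 4 ≤ Eminus x q := by
  obtain ⟨x0, hx0⟩ := LO.every_k k hk δ hδ hδ2
  refine ⟨x0, fun x hx q hq1 hq2 => ?_⟩
  obtain ⟨hq, hlog, h1, h2⟩ := hx0 x hx q hq1 hq2
  rw [L1_eq] at h1
  obtain ⟨h3, h4⟩ := signs x q hq _ h1 h2
  obtain ⟨h5, h6⟩ := to_maxes x q hq _ h3 h4
  have hq0 : (0 : ℝ) < q := by exact_mod_cast hq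
  have hl : 0 < (Real.log x) ^ 4 := by positivity
  have e : q * ((x : ℝ) / q) ^ (((k : ℝ) - 1) / (2 * k - 1)) / (Real.log x) ^ 4 / q =
      ((x : ℝ) / q) ^ (((k : ℝ) - 1) / (2 * k - 1)) / (Real.log x) ^ 4 := by
    field_simp
  rw [e] at h5 h6
  exact ⟨h3, h4, h5, h6⟩

theorem part2 (δ : ℝ) (hδ : 0 < δ) (hδ2 : δ ≤ 1 / 3) (ε : ℝ) (hε : 0 < ε) : ∃ x0 : ℕ, ∀ x : ℕ, x0 ≤ x →
    ∀ q : ℕ, (x : ℝ) ^ (2 / 3 + δ) ≤ q → q ≤ x →
      min (q * ((x : ℝ) / q) ^ (1 / 3 : ℝ)) ((q : ℝ) ^ 2 / (x : ℝ) ^ (2 / 3 : ℝ)) / (x : ℝ) ^ ε ≤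
        ∑ a ∈ red q, max (Δ x q a) 0 ∧
      min (q * ((x : ℝ) / q) ^ (1 / 3 : ℝ)) ((q : ℝ) ^ 2 / (x : ℝ) ^ (2 / 3 : ℝ)) / (x : ℝ) ^ ε ≤
        ∑ a ∈ red q, max (-Δ x q a) 0 ∧
      min (((x : ℝ) / q) ^ (1 / 3 : ℝ)) ((q : ℝ) / (x : ℝ) ^ (2 / 3 : ℝ)) / (x : ℝ) ^ ε ≤ Eplus x q ∧
      min (((x : ℝ) / q) ^ (1 / 3 : ℝ)) ((q : ℝ) / (x : ℝ) ^ (2 / 3 : ℝ)) / (x : ℝ) ^ ε ≤ Eminus x q := by
  obtain ⟨x0, hx0⟩ := LO.every_q2 (min δ ε) (lt_min hδ hε) ((min_le_left _ _).trans hδ2)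
  refine ⟨x0 + 1, fun x hx q hq1 hq2 => ?_⟩
  have hx1 : (1 : ℝ) ≤ x := by exact_mod_cast (by omega : 1 ≤ x)
  have hx0R : (0 : ℝ) < x := by linarith
  have hq1' : (x : ℝ) ^ (2 / 3 + min δ ε) ≤ q := by
    refine le_trans ?_ hq1
    apply Real.rpow_le_rpow_of_exponent_le hx1
    have := min_le_left δ ε
    linarith
  obtain ⟨hq, h1, h2⟩ := hx0 x (by omega) q hq1' hq2
  rw [L1_eq] at h1
  have hq0 : (0 : ℝ) < q := by exact_mod_cast hq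
  obtain ⟨μ, hμ⟩ : ∃ μ : ℝ, μ = min (q * ((x : ℝ) / q) ^ (1 / 3 : ℝ)) ((q : ℝ) ^ 2 / (x : ℝ) ^ (2 / 3 : ℝ)) := ⟨_, rfl⟩
  have hμ0 : 0 ≤ μ := by
    rw [hμ]
    apply le_min <;> positivity
  have hcomp : μ / (x : ℝ) ^ ε ≤ μ / (x : ℝ) ^ (min δ ε) := by
    apply div_le_div_of_nonneg_left hμ0 (by positivity)
    exact Real.rpow_le_rpow_of_exponent_le hx1 (min_le_right _ _)
  rw [← hμ] at h1 h2 ⊢
  obtain ⟨h3, h4⟩ := signs x q hq _ h1 h2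
  have h3' := hcomp.trans h3
  have h4' := hcomp.trans h4
  obtain ⟨h5, h6⟩ := to_maxes x q hq _ h3' h4'
  have e : μ / (x : ℝ) ^ ε / q = min (((x : ℝ) / q) ^ (1 / 3 : ℝ)) ((q : ℝ) / (x : ℝ) ^ (2 / 3 : ℝ)) / (x : ℝ) ^ ε := by
    have e1 : μ = q * min (((x : ℝ) / q) ^ (1 / 3 : ℝ)) ((q : ℝ) / (x : ℝ) ^ (2 / 3 : ℝ)) := by
      rw [hμ, mul_min_of_nonneg _ _ hq0.le]
      congr 1
      ring
    rw [e1]
    field_simp
  rw [e] at h5 h6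
  exact ⟨h3', h4', h5, h6⟩

theorem part3 (δ : ℝ) (hδ : 0 < δ) (hδ2 : δ ≤ 1 / 3) : ∃ x0 : ℕ, ∀ x : ℕ, x0 ≤ x →
    ∀ q : ℕ, (x : ℝ) ^ (2 / 3 + δ) ≤ q → (q : ℝ) ≤ (x : ℝ) ^ (1 - δ) →
      (x : ℝ) ^ (δ / 6) ≤ Eplus x q ∧ (x : ℝ) ^ (δ / 6) ≤ Eminus x q := by
  obtain ⟨x0, hx0⟩ := part2 δ hδ hδ2 (δ / 6) (by positivity)
  refine ⟨x0 + 1, fun x hx q hq1 hq2 => ?_⟩
  have hx1 : (1 : ℝ) ≤ x := by exact_mod_cast (by omega : 1 ≤ x)
  have hx0R : (0 : ℝ) < x := by linarith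
  have hqx : q ≤ x := by
    have h1 : (q : ℝ) ≤ x := by
      refine hq2.trans ?_
      calc (x : ℝ) ^ (1 - δ) ≤ (x : ℝ) ^ (1 : ℝ) := Real.rpow_le_rpow_of_exponent_le hx1 (by linarith)
        _ = x := Real.rpow_one _
    exact_mod_cast h1
  obtain ⟨_, _, h3, h4⟩ := hx0 x (by omega) q hq1 hqx
  have hq0 : (0 : ℝ) < q := lt_of_lt_of_le (by positivity) hq1
  have e1 : (x : ℝ) ^ (δ / 3) ≤ ((x : ℝ) / q) ^ (1 / 3 : ℝ) := by
    have e2 : (x : ℝ) ^ δ ≤ (x : ℝ) / q := by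
      rw [le_div_iff₀ hq0]
      calc (x : ℝ) ^ δ * q ≤ (x : ℝ) ^ δ * (x : ℝ) ^ (1 - δ) := by gcongr
        _ = (x : ℝ) ^ (1 : ℝ) := by
            rw [← Real.rpow_add hx0R]
            congr 1
            ring
        _ = x := Real.rpow_one _
    calc (x : ℝ) ^ (δ / 3) = ((x : ℝ) ^ δ) ^ (1 / 3 : ℝ) := by
          rw [← Real.rpow_mul hx0R.le]
          congr 1
          ring
      _ ≤ _ := Real.rpow_le_rpow (by positivity) e2 (by norm_num)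
  have e2 : (x : ℝ) ^ (δ / 3) ≤ (q : ℝ) / (x : ℝ) ^ (2 / 3 : ℝ) := by
    rw [le_div_iff₀ (by positivity), ← Real.rpow_add hx0R]
    refine le_trans ?_ hq1
    apply Real.rpow_le_rpow_of_exponent_le hx1
    linarith
  have e3 : (x : ℝ) ^ (δ / 6) ≤
      min (((x : ℝ) / q) ^ (1 / 3 : ℝ)) ((q : ℝ) / (x : ℝ) ^ (2 / 3 : ℝ)) / (x : ℝ) ^ (δ / 6) := by
    rw [le_div_iff₀ (by positivity), ← Real.rpow_add hx0R]
    have : δ / 6 + δ / 6 = δ / 3 := by ring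
    rw [this]
    exact le_min e1 e2
  exact ⟨e3.trans h3, e3.trans h4⟩

theorem result :
    (∀ k : ℕ, 2 ≤ k → ∀ δ : ℝ, 0 < δ → δ ≤ 1 / (2 * k) → ∃ x0 : ℕ, ∀ x : ℕ, x0 ≤ x →
      ∀ q : ℕ, (x : ℝ) ^ (1 - 1 / (2 * k) + δ) ≤ q → q ≤ x →
        q * ((x : ℝ) / q) ^ (((k : ℝ) - 1) / (2 * k - 1)) / (Real.log x) ^ 4 ≤ ∑ a ∈ red q, max (Δ x q a) 0 ∧
        q * ((x : ℝ) / q) ^ (((k : ℝ) - 1) / (2 * k - 1)) / (Real.log x) ^ 4 ≤ ∑ a ∈ red q, max (-Δ x q a) 0 ∧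
        ((x : ℝ) / q) ^ (((k : ℝ) - 1) / (2 * k - 1)) / (Real.log x) ^ 4 ≤ Eplus x q ∧
        ((x : ℝ) / q) ^ (((k : ℝ) - 1) / (2 * k - 1)) / (Real.log x) ^ 4 ≤ Eminus x q) ∧
    (∀ δ : ℝ, 0 < δ → δ ≤ 1 / 3 → ∀ ε : ℝ, 0 < ε → ∃ x0 : ℕ, ∀ x : ℕ, x0 ≤ x →
      ∀ q : ℕ, (x : ℝ) ^ (2 / 3 + δ) ≤ q → q ≤ x →
        min (q * ((x : ℝ) / q) ^ (1 / 3 : ℝ)) ((q : ℝ) ^ 2 / (x : ℝ) ^ (2 / 3 : ℝ)) / (x : ℝ) ^ ε ≤
          ∑ a ∈ red q, max (Δ x q a) 0 ∧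
        min (q * ((x : ℝ) / q) ^ (1 / 3 : ℝ)) ((q : ℝ) ^ 2 / (x : ℝ) ^ (2 / 3 : ℝ)) / (x : ℝ) ^ ε ≤
          ∑ a ∈ red q, max (-Δ x q a) 0 ∧
        min (((x : ℝ) / q) ^ (1 / 3 : ℝ)) ((q : ℝ) / (x : ℝ) ^ (2 / 3 : ℝ)) / (x : ℝ) ^ ε ≤ Eplus x q ∧
        min (((x : ℝ) / q) ^ (1 / 3 : ℝ)) ((q : ℝ) / (x : ℝ) ^ (2 / 3 : ℝ)) / (x : ℝ) ^ ε ≤ Eminus x q) ∧
    (∀ δ : ℝ, 0 < δ → δ ≤ 1 / 3 → ∃ x0 : ℕ, ∀ x : ℕ, x0 ≤ x →
      ∀ q : ℕ, (x : ℝ) ^ (2 / 3 + δ) ≤ q → (q : ℝ) ≤ (x : ℝ) ^ (1 - δ) →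
        (x : ℝ) ^ (δ / 6) ≤ Eplus x q ∧ (x : ℝ) ^ (δ / 6) ≤ Eminus x q) :=
  ⟨part1, part2, part3⟩

end Pool.Agent.H52.Kept.BothSignsEveryModulus
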