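import Mathlib
import Pool.Agent.H52.SI.S4

/-!
# MP_f9960f_nt : primes in short intervals fluctuate at least as much as in Cramér's model

In Cramér's random model the number of primes in `(n, n + h]` has variance about `h / log n`. We prove
unconditionally that the primes fluctuate at least as much, up to a constant factor, in the intervals of every
length `h ≤ N ^ (1/3 - δ)`: whatever the predictions `c n` for `π (n + h) - π n` are, if only their total variation
on `(N, 2 N)` is at most `N ^ (2/3)` (for example `h / log n`, or any monotone function with values in `[0, h]`,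
or the average of the numbers of primes in the shifted intervals over a window of length `≥ h N ^ (1/3)`),

* the mean square over `N < n ≤ 2 N` of `π (n + h) - π n - c n` is at least `κ h / log N`;
* for at least `κ N / (h log N)` of these `n` one has `|π (n + h) - π n - c n| ≥ κ √(h / log N)`.

Proof. Let `w (m) = ∑_{R₁ < r ≤ R} μ (r) / r c_r (m)` be the high frequency part of Selberg's weight, `c_r` being
the Ramanujan sum, with `R₁ = h N^η` and `R = h N^(1.1 η) ≤ N ^ (1/3)`, and `t (n) = ∑_{j ≤ h} w (n + j)`. The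
large sieve gives `∑ t (n)^2 ≤ 18 N h ∑_{R₁ < r ≤ R} μ² (r) / r`. In the correlation of `π (n + h) - π n` with `t`
the diagonal gives `h ∑ μ² (r) / r` times the number of primes; the other terms `∑_p ∑_{k ≤ K} w (p ± k)` are
expanded in primitive characters: small conductors have tiny coefficients as `R₁ > h`, and large conductors are
bounded by the Pólya–Vinogradov inequality in `k` and by Vaughan's identity with the large sieve in `p`. No
Siegel–Walfisz theorem is used. The correlation of `c` with `t` is small by partial summation.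
-/

set_option autoImplicit false

open Finset

namespace Pool.Agent.H52.Kept.FluctuationsInShortIntervals

open Pool.Agent.H52 Pool.Agent.H52.SI

lemma pi_diff (n h : ℕ) : (Nat.primeCounting (n + h) : ℝ) - Nat.primeCounting n = fp h n := by
  induction h with
  | zero =>
    unfold fp
    simp
  | succ h ih =>
    have h1 : Nat.primeCounting (n + (h + 1)) = Nat.primeCounting (n + h) +
        if (n + (h + 1)).Prime then 1 else 0 := by
      unfold Nat.primeCounting Nat.primeCounting'
      rw [show n + (h + 1) + 1 = (n + h + 1) + 1 by ring, Nat.count_succ]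
      rfl
    have h2 : fp (h + 1) n = fp h n + if (n + (h + 1)).Prime then (1 : ℝ) else 0 := by
      unfold fp
      rw [sum_Icc_succ_top (by omega)]
    rw [h2, ← ih, h1]
    push_cast
    ring

/-- **Lower bound of the order of Cramér's model for the fluctuations of primes in short intervals.** -/
theorem result (δ : ℝ) (hδ : 0 < δ) : ∃ κ : ℝ, 0 < κ ∧ ∃ N₀ : ℕ, ∀ N : ℕ, N₀ ≤ N → ∀ h : ℕ, 1 ≤ h →
    (h : ℝ) ≤ (N : ℝ) ^ (1 / 3 - δ) → ∀ c : ℕ → ℝ,
    ∑ n ∈ Ioo N (2 * N), |c (n + 1) - c n| ≤ (N : ℝ) ^ (2 / 3 : ℝ) →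
    κ * (h * N / Real.log N) ≤
      ∑ n ∈ Ioc N (2 * N), ((Nat.primeCounting (n + h) : ℝ) - Nat.primeCounting n - c n) ^ 2 ∧
    κ * (N / (h * Real.log N)) ≤
      (((Ioc N (2 * N)).filter (fun n => κ * Real.sqrt (h / Real.log N) ≤
        |(Nat.primeCounting (n + h) : ℝ) - Nat.primeCounting n - c n|)).card : ℝ) := by
  wlog hδ2 : δ ≤ 1 / 3 with H
  · obtain ⟨κ, hκ, N₀, h1⟩ := H (1 / 3) (by norm_num) le_rfl
    refine ⟨κ, hκ, N₀ + 2, fun N hN h hh hhN c hc => h1 N (by omega) h hh (hhN.trans ?_) c hc⟩
    apply Real.rpow_le_rpow_of_exponent_le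
    · exact_mod_cast (by omega : 1 ≤ N)
    · push Not at hδ2
      linarith
  obtain ⟨x0, hx0⟩ := short_var δ hδ hδ2
  refine ⟨δ / 2 ^ 24, by positivity, x0 + 3, fun N hN h hh hhN c hc => ?_⟩
  have hN0 : (0 : ℝ) < N := by exact_mod_cast (by omega : 0 < N)
  have hh0 : (0 : ℝ) < h := by exact_mod_cast (by omega : 0 < h)
  have hlog : 1 ≤ Real.log N := by
    rw [Real.le_log_iff_exp_le hN0]
    have : (3 : ℝ) ≤ N := by exact_mod_cast (by omega : 3 ≤ N)
    linarith [Real.exp_one_lt_three]
  have hlog0 : 0 < Real.log N := by linarith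
  have h0 : ∀ n : ℕ, (Nat.primeCounting (n + h) : ℝ) - Nat.primeCounting n - c n = fp h n - c n := by
    intro n
    rw [pi_diff]
  simp_rw [h0]
  have h1 := hx0 N (by omega) h hh hhN c hc
  refine ⟨?_, ?_⟩
  · refine le_trans ?_ h1
    apply mul_le_mul_of_nonneg_right _ (by positivity)
    apply div_le_div_of_nonneg_left hδ.le (by norm_num) (by norm_num)
  · -- truncation
    have hc2 : ∑ n ∈ Ioo N (2 * N), |tr h (c (n + 1)) - tr h (c n)| ≤ (N : ℝ) ^ (2 / 3 : ℝ) :=
      (sum_le_sum fun n _ => tr_lip _ _ _).trans hc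
    have h2 := hx0 N (by omega) h hh hhN (fun n => tr h (c n)) hc2
    set κ : ℝ := δ / 2 ^ 24 with hκ
    have hκ0 : 0 < κ := by positivity
    have hκ1 : κ ≤ 1 := by
      rw [hκ, div_le_one (by norm_num)]
      linarith
    set W := (Ioc N (2 * N)).filter (fun n => κ * Real.sqrt (h / Real.log N) ≤ |fp h n - c n|) with hW
    have h3 : ∑ n ∈ Ioc N (2 * N), (fp h n - tr h (c n)) ^ 2 ≤
        ∑ n ∈ W, (fp h n - tr h (c n)) ^ 2 + N * (κ ^ 2 * (h / Real.log N)) := by
      rw [hW, ← sum_filter_add_sum_filter_not (Ioc N (2 * N))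
        (fun n => κ * Real.sqrt (h / Real.log N) ≤ |fp h n - c n|)]
      apply add_le_add le_rfl
      have h4 : ∀ n ∈ (Ioc N (2 * N)).filter (fun n => ¬ κ * Real.sqrt (h / Real.log N) ≤ |fp h n - c n|),
          (fp h n - tr h (c n)) ^ 2 ≤ κ ^ 2 * (h / Real.log N) := by
        intro n hn
        rw [mem_filter, not_le] at hn
        refine (tr_close h (c n) (fp h n) (fp_nonneg h n) (fp_le h n)).trans ?_
        have e1 : (fp h n - c n) ^ 2 = |fp h n - c n| ^ 2 := (sq_abs _).symm
        have e2 : κ ^ 2 * (h / Real.log N) = (κ * Real.sqrt (h / Real.log N)) ^ 2 := by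
          rw [mul_pow, Real.sq_sqrt (by positivity)]
        rw [e1, e2]
        exact pow_le_pow_left₀ (abs_nonneg _) hn.2.le 2
      refine (sum_le_sum h4).trans ?_
      rw [sum_const, nsmul_eq_mul]
      apply mul_le_mul_of_nonneg_right _ (by positivity)
      have h5 := card_filter_le (Ioc N (2 * N)) (fun n => ¬ κ * Real.sqrt (h / Real.log N) ≤ |fp h n - c n|)
      rw [Nat.card_Ioc] at h5
      have h6 : 2 * N - N = N := by omega
      rw [h6] at h5
      exact_mod_cast h5
    have h4 : ∑ n ∈ W, (fp h n - tr h (c n)) ^ 2 ≤ W.card * (h : ℝ) ^ 2 := by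
      have h5 : ∀ n ∈ W, (fp h n - tr h (c n)) ^ 2 ≤ (h : ℝ) ^ 2 := by
        intro n _
        have e1 := fp_nonneg h n
        have e2 := fp_le h n
        have e3 : 0 ≤ tr h (c n) := by
          unfold tr
          exact le_max_left _ _
        have e4 : tr h (c n) ≤ h := by
          unfold tr
          exact max_le hh0.le (min_le_right _ _)
        apply sq_le_sq'
        · linarith
        · linarith
      refine (sum_le_sum h5).trans (le_of_eq ?_)
      rw [sum_const, nsmul_eq_mul]
    have h5 : (δ / 2 ^ 23) * (h * N / Real.log N) = 2 * κ * (h * N / Real.log N) := by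
      rw [hκ]
      ring
    have h6 : (N : ℝ) * (κ ^ 2 * (h / Real.log N)) ≤ κ * (h * N / Real.log N) := by
      calc (N : ℝ) * (κ ^ 2 * (h / Real.log N)) = κ * (κ * (h * N / Real.log N)) := by ring
        _ ≤ κ * (1 * (h * N / Real.log N)) := by gcongr
        _ = _ := by ring
    have h7 : κ * (h * N / Real.log N) ≤ W.card * (h : ℝ) ^ 2 := by
      rw [h5] at h2
      linarith
    have h8 : κ * (N / (h * Real.log N)) * (h : ℝ) ^ 2 = κ * (h * N / Real.log N) := by
      field_simp
    rw [← h8] at h7
    exact le_of_mul_le_mul_right h7 (by positivity)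

end Pool.Agent.H52.Kept.FluctuationsInShortIntervals
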