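import Mathlib
import Pool.Agent.H52.EH11

/-!
# MP_a78e8f_nt : primes in progressions to every modulus `q ≥ x ^ (2/3 + δ)`: the square root barrier

For EVERY modulus `q` with `x ^ (2/3 + δ) ≤ q ≤ x` the variance
`∑_a (π(x;q,a) - π(x)/φ(q))²` is at least `2⁻³⁰ δ x / log x`, and so
`E(x;q) ≥ (2⁻³⁰ δ x / (φ(q) log x))^(1/2)`.
-/

set_option autoImplicit false

open Finset

namespace Pool.Agent.H52.Kept.LowerBoundEveryModulus

open Pool.Agent.H52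

/-- `π(x;q,a) - π(x)/φ(q)` for a residue `a` -/
noncomputable def Δ (x q a : ℕ) : ℝ :=
  (((Icc 1 x).filter (fun p : ℕ => Nat.Prime p ∧ p % q = a)).card : ℝ) -
    (Nat.primeCounting x : ℝ) / (Nat.totient q : ℝ)

/-- the variance `∑_{a mod q, (a,q)=1} (π(x;q,a) - π(x)/φ(q))²` -/
noncomputable def V (x q : ℕ) : ℝ := ∑ a ∈ (range q).filter (fun a => a.Coprime q), Δ x q a ^ 2

/-- `E(x;q)`, the largest error over the reduced classes, as in the problem -/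
noncomputable def E (x q : ℕ) : ℝ :=
  ⨆ a : (ZMod q)ˣ,
    |(((Finset.Icc 1 x).filter
        (fun p : ℕ => Nat.Prime p ∧ ((p : ZMod q) = ((a : (ZMod q)ˣ) : ZMod q)))).card : ℝ)
      - (Nat.primeCounting x : ℝ) / (Nat.totient q : ℝ)|

lemma V_eq (x q : ℕ) : V x q = VV x q ((Nat.primeCounting x : ℝ) / Nat.totient q) := rfl

lemma E_ge (x q a : ℕ) (hq : 0 < q) (ha : a < q) (hc : a.Coprime q) : |Δ x q a| ≤ E x q := by
  have : NeZero q := ⟨hq.ne'⟩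
  have h1 := le_ciSup (f := fun a : (ZMod q)ˣ =>
    |(((Finset.Icc 1 x).filter
        (fun p : ℕ => Nat.Prime p ∧ ((p : ZMod q) = ((a : (ZMod q)ˣ) : ZMod q)))).card : ℝ)
      - (Nat.primeCounting x : ℝ) / (Nat.totient q : ℝ)|) (Set.finite_range _).bddAbove
      (ZMod.unitOfCoprime a hc)
  refine le_trans (le_of_eq ?_) h1
  unfold Δ
  simp only [ZMod.coe_unitOfCoprime]
  have h2 : (Icc 1 x).filter (fun p : ℕ => Nat.Prime p ∧ p % q = a) =
      (Finset.Icc 1 x).filter (fun p : ℕ => Nat.Prime p ∧ ((p : ZMod q) = ((a : ℕ) : ZMod q))) := by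
    apply filter_congr
    intro p _
    rw [ZMod.natCast_eq_natCast_iff', Nat.mod_eq_of_lt ha]
  rw [h2]

lemma E_nonneg (x q : ℕ) : 0 ≤ E x q := Real.iSup_nonneg fun _ => abs_nonneg _

lemma V_le (x q : ℕ) (hq : 0 < q) : V x q ≤ Nat.totient q * E x q ^ 2 := by
  unfold V
  have h5 : ((range q).filter (fun b => b.Coprime q)).card = Nat.totient q := by
    rw [Nat.totient_eq_card_coprime]
    congr 1
    ext b
    simp only [mem_filter, mem_range]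
    rw [Nat.coprime_comm]
  rw [← h5, ← nsmul_eq_mul, ← sum_const]
  apply sum_le_sum
  intro a ha
  rw [mem_filter, mem_range] at ha
  rw [← sq_abs]
  exact pow_le_pow_left₀ (abs_nonneg _) (E_ge x q a hq ha.1 ha.2) 2

lemma E_of_V (x q : ℕ) (hq : 0 < q) (c : ℝ) (h : c ≤ V x q) : Real.sqrt (c / Nat.totient q) ≤ E x q := by
  have hφ : (0 : ℝ) < Nat.totient q := by exact_mod_cast Nat.totient_pos.2 hq
  apply Real.sqrt_le_iff.2
  refine ⟨E_nonneg x q, ?_⟩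
  rw [div_le_iff₀ hφ]
  have := V_le x q hq
  linarith

/-- **Main result.** Let `0 < δ ≤ 1/3`. For all `x ≥ x₀(δ)` and EVERY modulus `q` with
`x^(2/3+δ) ≤ q ≤ x`: `∑_{(a,q)=1} (π(x;q,a) - π(x)/φ(q))² ≥ 2⁻³⁰ δ x / log x` and
`E(x;q) ≥ (2⁻³⁰ δ x / (φ(q) log x))^(1/2)`. -/
theorem result : ∀ δ : ℝ, 0 < δ → δ ≤ 1 / 3 → ∃ x0 : ℕ, ∀ x : ℕ, x0 ≤ x → ∀ q : ℕ,
    (x : ℝ) ^ (2 / 3 + δ) ≤ q → q ≤ x →
    δ / 2 ^ 30 * (x / Real.log x) ≤ V x q ∧
      Real.sqrt (δ / 2 ^ 30 * (x / Real.log x) / Nat.totient q) ≤ E x q := by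
  intro δ hδ hδ2
  obtain ⟨x0, hx0⟩ := every_q δ hδ hδ2
  refine ⟨x0 + 1, fun x hx q hq1 hq2 => ?_⟩
  have h := hx0 x (by omega) q hq1 hq2
  have hq : 0 < q := by
    have hx0R : (0 : ℝ) < x := by exact_mod_cast (by omega : 0 < x)
    have h1 : (0 : ℝ) < (x : ℝ) ^ (2 / 3 + δ) := by positivity
    have h2 : (0 : ℝ) < q := lt_of_lt_of_le h1 hq1
    exact_mod_cast h2
  exact ⟨h, E_of_V x q hq _ h⟩

end Pool.Agent.H52.Kept.LowerBoundEveryModulus
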